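import Pool.Agent.MWGP.Stmts
import Pool.Agent.Helper5_MWGP.GAP

/-!
# Block MWGP, row NRG: normal vectors
-/

set_option autoImplicit false

namespace Pool.Agent.MWGP.H20

open Pool.Agent.Helper14_MV Pool.Agent.Helper2_MV Pool.Agent.MVO Pool.Agent.MWL Pool.Agent.MWS
open Pool.Agent.MWH

theorem nrg : NrgStmt := by
  intro n β hM k a hN l j hlj hj hl0 hj0
  by_contra hlt
  have h1 : a j = 1 := by omega
  apply hlt
  apply hN j hj hj0
  change RR β (asm k (fun t => List.replicate (a t) 0))
    (asm k (fun t => List.replicate (ad n a j t) 0))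
  have hga : MWZ.Ga n (RR β) := hM.j2
  set B : ℕ → List ℕ := fun t => List.replicate (a t) 0 with hB
  have e : asm k (fun t => List.replicate (ad n a j t) 0) =
      asm k (Function.update B j (List.replicate (1 + 2 * n) 0)) := by
    apply asm_congr
    intro t ht
    by_cases h : t = j
    · subst h
      rw [Function.update_self]
      unfold ad
      rw [h1, if_pos rfl]
    · rw [Function.update_of_ne h]
      unfold ad
      rw [if_neg h]
      rfl
  rw [e, asm_update hj, asm_split hj B]
  have hBj : B j = [0] := by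
    rw [hB]
    change List.replicate (a j) 0 = [0]
    rw [h1]
    rfl
  have hp : 0 ∈ pre B j := by
    rw [mem_pre]
    refine Or.inr ⟨l, hlj, ?_⟩
    change 0 ∈ List.replicate (a l) 0
    rw [List.mem_replicate]
    exact ⟨hl0, rfl⟩
  have s1 := MWGP.H5.gap1 hga (pre B j) (suf B j (k - j)) 0 hp
  have s2 := MWGP.H5.gap1 hga (pre B j ++ List.replicate n 0) (suf B j (k - j)) 0
    (List.mem_append_left _ hp)
  rw [hBj]
  have e1 : pre B j ++ [0] ++ suf B j (k - j) = pre B j ++ 0 :: suf B j (k - j) := by simp
  have e2 : pre B j ++ (List.replicate (n + 1) 0 ++ suf B j (k - j)) =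
      pre B j ++ List.replicate n 0 ++ 0 :: suf B j (k - j) := by
    rw [List.replicate_succ']
    simp
  have e3 : pre B j ++ List.replicate n 0 ++ (List.replicate (n + 1) 0 ++ suf B j (k - j)) =
      pre B j ++ List.replicate (1 + 2 * n) 0 ++ suf B j (k - j) := by
    have : 1 + 2 * n = n + (n + 1) := by omega
    rw [this, List.replicate_add n (n + 1)]
    simp only [List.append_assoc]
  rw [e2] at s1
  rw [e3] at s2
  rw [e1]
  exact β.trans s1 s2

end Pool.Agent.MWGP.H20
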