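import Pool.Agent.Helper48_MWHP.Comp
import Pool.Agent.Helper20_MWGP.NRG
import Pool.Agent.Helper74_MWGP.GD0
import Pool.Agent.Helper14_MWGP.HHG
import Pool.Agent.Helper7_MWGP.D0T
import Pool.Agent.Helper37_MWGP.RS0
import Pool.Agent.Helper50_MWGP.JP2
import Pool.Agent.Helper98_MWGP.JPG
import Pool.Agent.Helper66_MWGP.RDG
import Pool.Agent.Helper81_MWGP.EDG
import Pool.Agent.Helper34_MWGP.DIG
import Pool.Agent.Helper5_MWGP.GAP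
import Pool.Agent.Helper37_MWGP.FCM
import Pool.Agent.Helper33_MWGP.BRG
import Pool.Agent.Helper82_MWGP.SGM

/-!
# Block MWGP: the gamma world, system M1 for arbitrary period, without hypotheses
-/

set_option autoImplicit false

namespace Pool.Agent.MWGP.Comp

open Pool.Agent.Helper14_MV Pool.Agent.Helper2_MV Pool.Agent.MVO Pool.Agent.MWL Pool.Agent.MWS
open Pool.Agent.MWH Pool.Agent.MWHP.Comp

theorem gd0 : Gd0Stmt := Pool.Agent.MWGP.H74.gd0 c_MWL_Ta1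
theorem hhg : HhgStmt := Pool.Agent.MWGP.H14.hhg c_MWHP_All c_MWHQ_Pin
theorem d0t : D0tStmt := Pool.Agent.MWGP.H7.d0t c_MWHP_Lrnn c_MWHP_Abi c_MWHP_Abj gd0 hhg
theorem rs0 : Rs0Stmt := Pool.Agent.MWGP.H37.rs0 c_MWHP_Nfe c_MWH_Okw
theorem jp2 : Jp2Stmt := Pool.Agent.MWGP.H50.jp2 c_MVO_One c_MWL_Trn c_MWL_Abs c_MWL_Key
  c_MWHP_Lrnn c_MWA_Ndq c_MWHP_Jpin c_MWHP_Nfe c_MWH_Okw c_MWHP_Shw c_MWHP_Res rs0
theorem jpg : JpgStmt := Pool.Agent.MWGP.H98.jpg c_MWHP_Lrnn c_MWHP_Abo gd0 d0t jp2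
theorem rdg : RdgStmt := Pool.Agent.MWGP.H66.rdg c_MWHQ_Dlb jpg
theorem edg : EdgStmt := Pool.Agent.MWGP.H81.edg c_MWHP_Edv Pool.Agent.MWGP.H20.nrg hhg rdg
theorem dig : DigStmt := Pool.Agent.MWGP.H34.dig c_MWHP_Tlmn c_MWHP_Swh edg
theorem fcm : FcmStmt := Pool.Agent.MWGP.H37.fcm Pool.Agent.MWGP.H5.gap
theorem brg : BrgStmt := Pool.Agent.MWGP.H33.brg c_MWHP_Cph Pool.Agent.MWGP.H5.gap fcm
theorem sgm : SgmStmt := Pool.Agent.MWGP.H82.sgm dig brg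

end Pool.Agent.MWGP.Comp
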